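import Mathlib

/-!
MP_c4077f_co: EFR allocations for restricted additive valuations. Definitions and basic lemmas.

`p` are the prices of the goods, `L i` the set of goods which agent `i` likes; agent `i` values a set
`S` at the total price of `S ∩ L i`.
-/

namespace Pool.Agent.Lib.MP_c4077f_co

open Finset

variable {N M : Type*} [Fintype N] [DecidableEq N] [Fintype M] [DecidableEq M]

/-- the price of a set of goods -/
noncomputable def pr (p : M → ℝ) (S : Finset M) : ℝ := ∑ g ∈ S, p g

/-- the value of a set of goods for an agent -/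
noncomputable def va (p : M → ℝ) (L : N → Finset M) (i : N) (S : Finset M) : ℝ := pr p (S ∩ L i)

/-- an agent `w` with value `t` is satisfied with respect to the bundle `Z` -/
def Fine (p : M → ℝ) (L : N → Finset M) (w : N) (Z : Finset M) (t : ℝ) : Prop :=
  (1 - 1 / (Z.card : ℝ)) * va p L w Z ≤ t

/-- admissible allocations: disjoint, satisfied, and a bundle with a good which its owner does not like
is not envied -/
structure Adm (p : M → ℝ) (L : N → Finset M) (A : N → Finset M) : Prop where
  disj : ∀ i j, i ≠ j → Disjoint (A i) (A j)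
  efr : ∀ i j, Fine p L i (A j) (va p L i (A i))
  junk : ∀ j, A j ⊆ L j ∨ ∀ i, va p L i (A j) ≤ va p L i (A i)

/-- the rank of a real number: the number of sets of smaller price -/
noncomputable def rk (p : M → ℝ) (t : ℝ) : ℕ :=
  (Finset.univ.filter fun S : Finset M => pr p S < t).card

/-- the potential -/
noncomputable def Phi (p : M → ℝ) (L : N → Finset M) (A : N → Finset M) : ℕ :=
  ∑ i, (Fintype.card N + 1) ^ (Fintype.card (Finset M) - rk p (va p L i (A i)))

/-- the number of allocated goods -/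
def sz (A : N → Finset M) : ℕ := ∑ i, (A i).card

/-- optimal allocations -/
structure Opt (p : M → ℝ) (L : N → Finset M) (A : N → Finset M) : Prop where
  adm : Adm p L A
  phi : ∀ A', Adm p L A' → Phi p L A ≤ Phi p L A'
  sz : ∀ A', Adm p L A' → Phi p L A' = Phi p L A → sz A' ≤ sz A

/-- trimmed sets at level `lam` -/
def Tr (p : M → ℝ) (lam : ℝ) (Z : Finset M) : Prop :=
  lam < pr p Z ∧ ∀ z ∈ Z, pr p (Z.erase z) ≤ lam

section basic

variable {p : M → ℝ} {L : N → Finset M}

omit [Fintype M] in
theorem pr_mono (hp : ∀ g, 0 < p g) {S T : Finset M} (h : S ⊆ T) : pr p S ≤ pr p T :=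
  Finset.sum_le_sum_of_subset_of_nonneg h fun g _ _ => (hp g).le

omit [Fintype M] [DecidableEq M] in
theorem pr_nonneg (hp : ∀ g, 0 < p g) (S : Finset M) : 0 ≤ pr p S :=
  Finset.sum_nonneg fun g _ => (hp g).le

omit [Fintype N] [DecidableEq N] [Fintype M] in
theorem va_nonneg (hp : ∀ g, 0 < p g) (i : N) (S : Finset M) : 0 ≤ va p L i S :=
  pr_nonneg hp _

omit [Fintype N] [DecidableEq N] [Fintype M] in
theorem va_mono (hp : ∀ g, 0 < p g) (i : N) {S T : Finset M} (h : S ⊆ T) :
    va p L i S ≤ va p L i T :=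
  pr_mono hp (Finset.inter_subset_inter_right h)

omit [Fintype N] [DecidableEq N] [Fintype M] in
theorem va_le_pr (hp : ∀ g, 0 < p g) (i : N) (S : Finset M) : va p L i S ≤ pr p S :=
  pr_mono hp Finset.inter_subset_left

omit [Fintype N] [DecidableEq N] [Fintype M] in
theorem va_eq_pr {i : N} {S : Finset M} (h : S ⊆ L i) : va p L i S = pr p S := by
  unfold va
  rw [Finset.inter_eq_left.2 h]

omit [Fintype N] [DecidableEq N] [Fintype M] in
theorem va_inter (i : N) (S : Finset M) : va p L i (S ∩ L i) = va p L i S := by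
  unfold va
  rw [Finset.inter_assoc, Finset.inter_self]

omit [Fintype M] in
theorem pr_insert {S : Finset M} {q : M} (h : q ∉ S) : pr p (insert q S) = p q + pr p S :=
  Finset.sum_insert h

omit [Fintype M] in
theorem pr_erase {S : Finset M} {q : M} (h : q ∈ S) : p q + pr p (S.erase q) = pr p S :=
  Finset.add_sum_erase S p h

omit [Fintype N] [DecidableEq N] [Fintype M] in
theorem va_insert_le (hp : ∀ g, 0 < p g) (i : N) (S : Finset M) (q : M) :
    va p L i (insert q S) ≤ va p L i S + p q := by
  unfold va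
  by_cases h : q ∈ L i
  · rw [Finset.insert_inter_of_mem h]
    by_cases h2 : q ∈ S ∩ L i
    · rw [Finset.insert_eq_of_mem h2]
      have := hp q
      linarith
    · rw [pr_insert h2]
      linarith
  · rw [Finset.insert_inter_of_notMem h]
    have := hp q
    linarith

omit [Fintype N] [DecidableEq N] [Fintype M] in
theorem va_insert_of_notMem (i : N) (S : Finset M) (q : M) (h : q ∉ L i) :
    va p L i (insert q S) = va p L i S := by
  unfold va
  rw [Finset.insert_inter_of_notMem h]

omit [Fintype N] [DecidableEq N] [Fintype M] in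
theorem fine_of_va_le (hp : ∀ g, 0 < p g) {w : N} {Z : Finset M} {t : ℝ} (h : va p L w Z ≤ t) :
    Fine p L w Z t := by
  unfold Fine
  have h0 := va_nonneg (L := L) hp w Z
  have h1 : (0 : ℝ) ≤ 1 / (Z.card : ℝ) := by positivity
  nlinarith

omit [Fintype N] [DecidableEq N] [Fintype M] in
theorem fine_of_le (hp : ∀ g, 0 < p g) {w : N} {Z : Finset M} {t x : ℝ} {k : ℕ}
    (h : va p L w Z ≤ x) (hk : Z.card ≤ k) (hx : (1 - 1 / (k : ℝ)) * x ≤ t) (ht : 0 ≤ t) :
    Fine p L w Z t := by
  unfold Fine
  rcases Finset.eq_empty_or_nonempty Z with rfl | hZ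
  · have : va p L w (∅ : Finset M) = 0 := by unfold va pr; simp
    rw [this, mul_zero]
    exact ht
  · have h1 : 1 ≤ Z.card := Finset.card_pos.2 hZ
    have h2 : (1 : ℝ) ≤ (Z.card : ℝ) := by exact_mod_cast h1
    have h3 : (Z.card : ℝ) ≤ (k : ℝ) := by exact_mod_cast hk
    have h4 : 1 / (k : ℝ) ≤ 1 / (Z.card : ℝ) := one_div_le_one_div_of_le (by linarith) h3
    have h5 : 1 / (Z.card : ℝ) ≤ 1 := by
      rw [div_le_one (by linarith)]
      exact h2
    have h0 := va_nonneg (L := L) hp w Z
    calc (1 - 1 / (Z.card : ℝ)) * va p L w Z ≤ (1 - 1 / (k : ℝ)) * va p L w Z :=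
          mul_le_mul_of_nonneg_right (by linarith) h0
      _ ≤ (1 - 1 / (k : ℝ)) * x := mul_le_mul_of_nonneg_left h (by linarith)
      _ ≤ t := hx

omit [Fintype N] [DecidableEq N] [Fintype M] in
theorem fine_mono (hp : ∀ g, 0 < p g) {w : N} {Z Z' : Finset M} {t : ℝ} (h : Z ⊆ Z')
    (hf : Fine p L w Z' t) (ht : 0 ≤ t) : Fine p L w Z t :=
  fine_of_le hp (va_mono hp w h) (Finset.card_le_card h) hf ht

omit [Fintype M] in
theorem exists_trim (lam : ℝ) (S : Finset M) (h : lam < pr p S) :
    ∃ Z ⊆ S, Tr p lam Z := by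
  induction S using Finset.strongInduction with
  | H S ih =>
    by_cases h2 : ∀ z ∈ S, pr p (S.erase z) ≤ lam
    · exact ⟨S, Finset.Subset.refl _, h, h2⟩
    · push Not at h2
      obtain ⟨z, hz, hz2⟩ := h2
      obtain ⟨Z, hZ, hT⟩ := ih (S.erase z) (Finset.erase_ssubset hz) hz2
      exact ⟨Z, hZ.trans (Finset.erase_subset _ _), hT⟩

omit [Fintype M] in
theorem sum_sum_erase (Z : Finset M) (f : M → ℝ) :
    ∑ z ∈ Z, ∑ h ∈ Z.erase z, f h = ((Z.card : ℝ) - 1) * ∑ z ∈ Z, f z := by
  have h1 : ∀ z ∈ Z, ∑ h ∈ Z.erase z, f h = (∑ h ∈ Z, f h) - f z := by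
    intro z hz
    rw [← Finset.add_sum_erase Z f hz]
    ring
  rw [Finset.sum_congr rfl h1, Finset.sum_sub_distrib, Finset.sum_const, nsmul_eq_mul]
  ring

omit [Fintype N] [DecidableEq N] [Fintype M] in
theorem fine_of_trim (hp : ∀ g, 0 < p g) {lam : ℝ} (hl : 0 ≤ lam) {Z : Finset M} (hZ : Tr p lam Z)
    (w : N) {t : ℝ} (ht : lam ≤ t) : Fine p L w Z t := by
  have hne : Z.Nonempty := by
    rw [Finset.nonempty_iff_ne_empty]
    rintro rfl
    have := hZ.1
    unfold pr at this
    simp at this
    linarith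
  have h1 : (1 : ℝ) ≤ (Z.card : ℝ) := by exact_mod_cast Finset.card_pos.2 hne
  have h2 : ((Z.card : ℝ) - 1) * pr p Z ≤ (Z.card : ℝ) * lam := by
    have := sum_sum_erase Z p
    unfold pr
    rw [← this]
    calc ∑ z ∈ Z, ∑ h ∈ Z.erase z, p h ≤ ∑ _z ∈ Z, lam := Finset.sum_le_sum fun z hz => hZ.2 z hz
      _ = (Z.card : ℝ) * lam := by rw [Finset.sum_const, nsmul_eq_mul]
  unfold Fine
  have h3 := va_le_pr (L := L) hp w Z
  have h4 : 0 ≤ 1 - 1 / (Z.card : ℝ) := by
    have : 1 / (Z.card : ℝ) ≤ 1 := by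
      rw [div_le_one (by linarith)]
      exact h1
    linarith
  calc (1 - 1 / (Z.card : ℝ)) * va p L w Z ≤ (1 - 1 / (Z.card : ℝ)) * pr p Z :=
        mul_le_mul_of_nonneg_left h3 h4
    _ = (((Z.card : ℝ) - 1) * pr p Z) / (Z.card : ℝ) := by
        field_simp
    _ ≤ ((Z.card : ℝ) * lam) / (Z.card : ℝ) := by
        apply div_le_div_of_nonneg_right h2
        linarith
    _ = lam := by
        field_simp
    _ ≤ t := ht

theorem rk_le (t : ℝ) : rk p t ≤ Fintype.card (Finset M) := by
  unfold rk
  exact Finset.card_le_univ _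

theorem rk_lt {S : Finset M} {t : ℝ} (h : pr p S < t) : rk p (pr p S) < rk p t := by
  unfold rk
  apply Finset.card_lt_card
  rw [Finset.ssubset_iff_of_subset]
  · exact ⟨S, by simp [h], by simp⟩
  · intro T hT
    simp only [Finset.mem_filter, Finset.mem_univ, true_and] at hT ⊢
    linarith

theorem rk_mono {s t : ℝ} (h : s ≤ t) : rk p s ≤ rk p t := by
  unfold rk
  apply Finset.card_le_card
  intro T hT
  simp only [Finset.mem_filter, Finset.mem_univ, true_and] at hT ⊢
  linarith

theorem exists_opt (hp : ∀ g, 0 < p g) : ∃ A, Opt p L A := by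
  classical
  have h0 : Adm p L (fun _ => (∅ : Finset M)) := by
    refine ⟨fun i j _ => by simp, fun i j => ?_, fun j => Or.inl (by simp)⟩
    apply fine_of_va_le hp
    exact le_refl _
  have hne : (Finset.univ.filter fun A : N → Finset M => Adm p L A).Nonempty :=
    ⟨_, by simpa using h0⟩
  obtain ⟨A, hA, hmin⟩ := Finset.exists_min_image _
    (fun A => Phi p L A * (Fintype.card N * Fintype.card M + 1) +
      (Fintype.card N * Fintype.card M - sz A)) hne
  simp only [Finset.mem_filter, Finset.mem_univ, true_and] at hA hmin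
  have hsz : ∀ A' : N → Finset M, sz A' ≤ Fintype.card N * Fintype.card M := by
    intro A'
    unfold sz
    calc ∑ i, (A' i).card ≤ ∑ _i : N, Fintype.card M :=
          Finset.sum_le_sum fun i _ => Finset.card_le_univ _
      _ = _ := by simp
  refine ⟨A, hA, fun A' hA' => ?_, fun A' hA' he => ?_⟩
  · have h1 := hmin A' hA'
    by_contra hc
    push Not at hc
    have h2 : (Phi p L A' + 1) * (Fintype.card N * Fintype.card M + 1) ≤
        Phi p L A * (Fintype.card N * Fintype.card M + 1) := Nat.mul_le_mul_right _ hc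
    have h3 : (Phi p L A' + 1) * (Fintype.card N * Fintype.card M + 1) =
        Phi p L A' * (Fintype.card N * Fintype.card M + 1) +
          (Fintype.card N * Fintype.card M + 1) := by ring
    omega
  · have h1 := hmin A' hA'
    rw [he] at h1
    have h2 := hsz A'
    have h3 := hsz A
    omega

end basic

end Pool.Agent.Lib.MP_c4077f_co
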