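import Pool.Agent.Lib.MP_c4077f_co.Basic

/-!
MP_c4077f_co: the improvement lemma and the absence of cycles.
-/

set_option linter.unusedSectionVars false

namespace Pool.Agent.Lib.MP_c4077f_co

open Finset

variable {N M : Type*} [Fintype N] [DecidableEq N] [Fintype M] [DecidableEq M]
variable {p : M → ℝ} {L : N → Finset M} {A : N → Finset M}

/-- the improvement lemma -/
theorem imp (hp : ∀ g, 0 < p g) (hA : Opt p L A) (lam : ℝ) (h : N) (B : N → Finset M)
    (hd : ∀ i j, i ≠ j → Disjoint (B i) (B j)) (hL : ∀ i, B i ⊆ L i)
    (h1 : va p L h (A h) ≤ lam) (h2 : lam < pr p (B h))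
    (h3 : ∀ i, lam < pr p (B i) ∨ (va p L i (A i) ≤ lam ∧ B i = A i ∩ L i))
    (h4 : ∀ i, lam < pr p (B i) → ∃ Z ⊆ B i, Tr p lam Z ∧
      ∀ w, ¬ lam < pr p (B w) → Fine p L w Z (va p L w (A w))) : False := by
  classical
  have hl : 0 ≤ lam := le_trans (va_nonneg hp _ _) h1
  choose! Z hZB hZT hZf using h4
  set A' : N → Finset M := fun i => if lam < pr p (B i) then Z i else B i with hA'
  have hhi : ∀ i, lam < pr p (B i) → A' i = Z i := fun i hi => by simp [hA', hi]
  have hlo : ∀ i, ¬ lam < pr p (B i) → A' i = A i ∩ L i := fun i hi => by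
    rcases h3 i with h5 | h5
    · exact absurd h5 hi
    · simp only [hA', if_neg hi]
      exact h5.2
  have hlo1 : ∀ i, ¬ lam < pr p (B i) → va p L i (A i) ≤ lam := fun i hi => by
    rcases h3 i with h5 | h5
    · exact absurd h5 hi
    · exact h5.1
  have hsub : ∀ i, A' i ⊆ B i := by
    intro i
    by_cases hi : lam < pr p (B i)
    · rw [hhi i hi]; exact hZB i hi
    · have : A' i = B i := by simp [hA', hi]
      rw [this]
  have hvhi : ∀ i, lam < pr p (B i) → lam < va p L i (A' i) := by
    intro i hi
    rw [hhi i hi, va_eq_pr ((hZB i hi).trans (hL i))]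
    exact (hZT i hi).1
  have hvlo : ∀ i, ¬ lam < pr p (B i) → va p L i (A' i) = va p L i (A i) := by
    intro i hi
    rw [hlo i hi, va_inter]
  have hadm : Adm p L A' := by
    refine ⟨fun i j hij => ?_, fun w i => ?_, fun j => Or.inl ((hsub j).trans (hL j))⟩
    · exact Finset.disjoint_of_subset_left (hsub i) (Finset.disjoint_of_subset_right (hsub j)
        (hd i j hij))
    · by_cases hi : lam < pr p (B i)
      · rw [hhi i hi]
        by_cases hw : lam < pr p (B w)
        · exact fine_of_trim hp hl (hZT i hi) w (hvhi w hw).le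
        · rw [hvlo w hw]
          exact hZf i hi w hw
      · by_cases hw : lam < pr p (B w)
        · apply fine_of_va_le hp
          have h5 : va p L w (A' i) ≤ pr p (A' i) := va_le_pr hp _ _
          have h6 : pr p (A' i) = va p L i (A i) := by
            rw [hlo i hi]; rfl
          have h7 := hlo1 i hi
          have h8 := hvhi w hw
          linarith
        · rw [hvlo w hw, hlo i hi]
          exact fine_mono hp Finset.inter_subset_left (hA.adm.efr w i) (va_nonneg hp _ _)
  have hphi : Phi p L A' < Phi p L A := by
    unfold Phi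
    set n := Fintype.card N with hn
    set K := Fintype.card (Finset M) with hK
    set r := rk p (va p L h (A h)) with hr
    have hrK : r ≤ K := rk_le _
    have hnew : ∀ i, lam < pr p (B i) → r + 1 ≤ rk p (va p L i (A' i)) := by
      intro i hi
      have h5 := hvhi i hi
      have h6 : pr p (A h ∩ L h) < va p L i (A' i) := by
        have : pr p (A h ∩ L h) = va p L h (A h) := rfl
        linarith
      exact rk_lt h6
    have hrK1 : r + 1 ≤ K := (hnew h h2).trans (rk_le _)
    rw [← Finset.sum_filter_add_sum_filter_not Finset.univ (fun i => lam < pr p (B i))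
      (fun i => (n + 1) ^ (K - rk p (va p L i (A' i)))),
      ← Finset.sum_filter_add_sum_filter_not Finset.univ (fun i => lam < pr p (B i))
      (fun i => (n + 1) ^ (K - rk p (va p L i (A i))))]
    have e1 : ∑ i ∈ Finset.univ.filter (fun i => ¬ lam < pr p (B i)),
        (n + 1) ^ (K - rk p (va p L i (A' i))) =
        ∑ i ∈ Finset.univ.filter (fun i => ¬ lam < pr p (B i)),
        (n + 1) ^ (K - rk p (va p L i (A i))) := by
      apply Finset.sum_congr rfl
      intro i hi
      rw [hvlo i (Finset.mem_filter.1 hi).2]
    rw [e1]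
    apply Nat.add_lt_add_right
    have hmem : h ∈ Finset.univ.filter (fun i => lam < pr p (B i)) := by
      simp [h2]
    calc ∑ i ∈ Finset.univ.filter (fun i => lam < pr p (B i)),
          (n + 1) ^ (K - rk p (va p L i (A' i)))
        ≤ ∑ _i ∈ Finset.univ.filter (fun i => lam < pr p (B i)), (n + 1) ^ (K - (r + 1)) := by
          apply Finset.sum_le_sum
          intro i hi
          apply Nat.pow_le_pow_right (Nat.succ_pos n)
          have := hnew i (Finset.mem_filter.1 hi).2
          omega
      _ = (Finset.univ.filter (fun i => lam < pr p (B i))).card * (n + 1) ^ (K - (r + 1)) := by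
          rw [Finset.sum_const, smul_eq_mul]
      _ ≤ n * (n + 1) ^ (K - (r + 1)) := Nat.mul_le_mul_right _ (Finset.card_le_univ _)
      _ < (n + 1) * (n + 1) ^ (K - (r + 1)) :=
          Nat.mul_lt_mul_of_pos_right (Nat.lt_succ_self n) (Nat.pow_pos (Nat.succ_pos n))
      _ = (n + 1) ^ (K - r) := by
          rw [← pow_succ']
          congr 1
          omega
      _ ≤ _ := Finset.single_le_sum
          (f := fun i => (n + 1) ^ (K - rk p (va p L i (A i)))) (fun i _ => Nat.zero_le _) hmem
  exact absurd (hA.phi A' hadm) (not_le.2 hphi)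

/-- the envy graph at level `lam` -/
def G (p : M → ℝ) (L : N → Finset M) (A : N → Finset M) (lam : ℝ) (x y : N) : Prop :=
  lam < va p L x (A y)

theorem G_mono {lam mu : ℝ} (h : mu ≤ lam) {x y : N}
    (hr : Relation.ReflTransGen (G p L A lam) x y) : Relation.ReflTransGen (G p L A mu) x y :=
  Relation.ReflTransGen.mono (r := G p L A lam) (fun _ _ h2 => lt_of_le_of_lt h h2) _ _ hr

/-- a path without repetitions -/
theorem exists_nodup_path {α : Type*} [DecidableEq α] {r : α → α → Prop} {x y : α}
    (h : Relation.ReflTransGen r x y) :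
    ∃ l : List α, l.IsChain r ∧ l.Nodup ∧ l.head? = some x ∧ l.getLast? = some y := by
  induction h using Relation.ReflTransGen.head_induction_on with
  | refl => exact ⟨[y], by simp, by simp, by simp, by simp⟩
  | head hac hcy ih =>
    rename_i a c
    obtain ⟨l, hc, hn, hh, hl⟩ := ih
    by_cases ha : a ∈ l
    · obtain ⟨s, t, rfl⟩ := List.append_of_mem ha
      refine ⟨a :: t, ?_, ?_, by simp, ?_⟩
      · exact (List.isChain_append.1 hc).2.1
      · exact (List.nodup_append.1 hn).2.1
      · rw [← hl, List.getLast?_append]
        cases hq : (a :: t).getLast? with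
        | none => simp at hq
        | some b => simp
    · refine ⟨a :: l, ?_, ?_, by simp, ?_⟩
      · cases l with
        | nil => simp at hh
        | cons b t =>
          simp only [List.head?_cons, Option.some.injEq] at hh
          subst hh
          exact List.isChain_cons_cons.2 ⟨hac, hc⟩
      · exact List.nodup_cons.2 ⟨ha, hn⟩
      · cases l with
        | nil => simp at hh
        | cons b t =>
          rw [← hl]
          simp

/-- no agent lies on a cycle of the envy graph at its own level -/
theorem noCycle (hp : ∀ g, 0 < p g) (hA : Opt p L A) {lam : ℝ} {h x : N}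
    (hV : va p L h (A h) ≤ lam) (hx : lam < va p L h (A x))
    (hr : Relation.ReflTransGen (G p L A lam) x h) : False := by
  classical
  obtain ⟨l, hc, hn, hh, hl⟩ := exists_nodup_path hr
  have hlpos : 0 < l.length := by
    cases l with
    | nil => simp at hh
    | cons b t => simp
  have hhead : l[0] = x := by
    rw [List.head?_eq_getElem?, List.getElem?_eq_getElem hlpos] at hh
    exact Option.some.inj hh
  have hlast : l[l.length - 1] = h := by
    rw [List.getLast?_eq_getElem?, List.getElem?_eq_getElem (by omega)] at hl
    exact Option.some.inj hl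
  set σ := l.formPerm with hσ
  have hmove : ∀ i ∈ l, lam < va p L i (A (σ i)) := by
    intro i hi
    obtain ⟨k, hk, rfl⟩ := List.getElem_of_mem hi
    by_cases hk2 : k + 1 < l.length
    · rw [hσ, List.formPerm_apply_lt_getElem l hn k hk2]
      exact List.isChain_iff_getElem.1 hc k hk2
    · have hk3 : k = l.length - 1 := by omega
      have hσ2 : σ l[k] = l[0] := by
        rw [hσ, List.formPerm_apply_getElem l hn k hk]
        congr 1
        rw [hk3, Nat.sub_add_cancel hlpos, Nat.mod_self]
      rw [hσ2, hhead]
      have : l[k] = h := by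
        rw [← hlast]
        congr 1
      rw [this]
      exact hx
  have hfix : ∀ i, i ∉ l → σ i = i := fun i hi => List.formPerm_apply_of_notMem hi
  have hmemh : h ∈ l := by
    rw [← hlast]
    exact List.getElem_mem _
  refine imp hp hA lam h (fun i => A (σ i) ∩ L i) ?_ (fun i => Finset.inter_subset_right) hV
    (hmove h hmemh) ?_ ?_
  · intro i j hij
    exact Finset.disjoint_of_subset_left Finset.inter_subset_left
      (Finset.disjoint_of_subset_right Finset.inter_subset_left
        (hA.adm.disj _ _ fun h => hij (σ.injective h)))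
  · intro i
    by_cases hi : i ∈ l
    · exact Or.inl (hmove i hi)
    · rw [hfix i hi]
      by_cases h5 : lam < pr p (A i ∩ L i)
      · exact Or.inl h5
      · exact Or.inr ⟨not_lt.1 h5, rfl⟩
  · intro i hi
    obtain ⟨Z, hZ, hT⟩ := exists_trim lam _ hi
    refine ⟨Z, hZ, hT, fun w _ => ?_⟩
    exact fine_mono hp (hZ.trans Finset.inter_subset_left) (hA.adm.efr w (σ i))
      (va_nonneg hp _ _)

end Pool.Agent.Lib.MP_c4077f_co
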