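import Pool.Agent.Lib.MP_c4077f_co.Star

/-!
MP_c4077f_co: optimal allocations are complete.
-/

set_option linter.unusedSectionVars false

namespace Pool.Agent.Lib.MP_c4077f_co

open Finset

variable {N M : Type*} [Fintype N] [DecidableEq N] [Fintype M] [DecidableEq M]
variable {p : M → ℝ} {L : N → Finset M} {A : N → Finset M}

/-- a free good cannot be added to an unenvied bundle, whose owner does not like it -/
theorem violator (hp : ∀ g, 0 < p g) (hA : Opt p L A) {g : M} (hg : ∀ i, g ∉ A i) {i : N}
    (hgi : g ∉ L i) (hun : ∀ w, va p L w (A i) ≤ va p L w (A w)) :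
    ∃ y, g ∈ L y ∧ va p L y (A y) < va p L y (A i) + p g := by
  by_contra hcon
  push Not at hcon
  set A' := Function.update A i (insert g (A i)) with hA'
  have hii : A' i = insert g (A i) := by rw [hA', Function.update_self]
  have hij : ∀ j, j ≠ i → A' j = A j := fun j hj => by rw [hA', Function.update_of_ne hj]
  have hV : ∀ w, va p L w (A' w) = va p L w (A w) := by
    intro w
    by_cases hw : w = i
    · subst hw
      rw [hii, va_insert_of_notMem w _ g hgi]
    · rw [hij w hw]
  have hle : ∀ w, va p L w (A' i) ≤ va p L w (A w) := by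
    intro w
    rw [hii]
    by_cases h : g ∈ L w
    · exact (va_insert_le hp w (A i) g).trans (hcon w h)
    · rw [va_insert_of_notMem w _ g h]
      exact hun w
  have hadm : Adm p L A' := by
    refine ⟨fun j k hjk => ?_, fun w j => ?_, fun j => ?_⟩
    · have key : ∀ j, j ≠ i → Disjoint (insert g (A i)) (A j) := by
        intro j hj
        rw [Finset.disjoint_insert_left]
        exact ⟨hg j, hA.adm.disj i j (Ne.symm hj)⟩
      by_cases hj : j = i
      · subst hj
        rw [hii, hij k (Ne.symm hjk)]
        exact key k (Ne.symm hjk)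
      · rw [hij j hj]
        by_cases hk : k = i
        · subst hk
          rw [hii]
          exact (key j hj).symm
        · rw [hij k hk]
          exact hA.adm.disj j k hjk
    · rw [hV w]
      by_cases hj : j = i
      · subst hj
        exact fine_of_va_le hp (hle w)
      · rw [hij j hj]
        exact hA.adm.efr w j
    · by_cases hj : j = i
      · subst hj
        right
        intro w
        rw [hV w]
        exact hle w
      · rw [hij j hj]
        rcases hA.adm.junk j with h | h
        · exact Or.inl h
        · right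
          intro w
          rw [hV w]
          exact h w
  have hphi : Phi p L A' = Phi p L A := by
    unfold Phi
    apply Finset.sum_congr rfl
    intro j _
    rw [hV j]
  have h1 := hA.sz A' hadm hphi
  have h2 : sz A < sz A' := by
    unfold sz
    apply Finset.sum_lt_sum
    · intro j _
      by_cases hj : j = i
      · subst hj
        rw [hii]
        exact Finset.card_le_card (Finset.subset_insert _ _)
      · rw [hij j hj]
    · refine ⟨i, Finset.mem_univ _, ?_⟩
      rw [hii, Finset.card_insert_of_notMem (hg i)]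
      exact Nat.lt_succ_self _
  omega

/-- the poorest agent who reaches `a` -/
theorem source (hp : ∀ g, 0 < p g) (hA : Opt p L A) {g : M} (hg : ∀ i, g ∉ A i) {a : N}
    (ha : g ∈ L a) (hNL : ∀ w, g ∈ L w → va p L w (A w) < va p L a (A a) →
      va p L w (A a ∩ L a) + p g ≤ va p L w (A w)) :
    ∃ i, Relation.ReflTransGen (G p L A (va p L i (A i))) i a ∧
      va p L i (A i) + p g ≤ va p L a (A a) ∧
      (∀ w, va p L w (A i) ≤ va p L w (A w)) ∧
      (∀ z, Relation.ReflTransGen (G p L A (va p L z (A z))) z i →
        va p L i (A i) ≤ va p L z (A z)) := by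
  classical
  obtain ⟨z, hz1, hz2⟩ := star hp hA _ a g (fun i => A i ∩ L i) rfl ha
    (fun i j hij => Finset.disjoint_of_subset_left Finset.inter_subset_left
      (Finset.disjoint_of_subset_right Finset.inter_subset_left (hA.adm.disj i j hij)))
    (fun i => Finset.inter_subset_right)
    (fun i h => hg i (Finset.mem_inter.1 h).1) (fun x => Or.inl rfl) hNL
  have hne : (Finset.univ.filter fun z =>
      Relation.ReflTransGen (G p L A (va p L z (A z))) z a).Nonempty := ⟨z, by simpa using hz2⟩
  obtain ⟨i, hi, hmin⟩ := Finset.exists_min_image _ (fun z => va p L z (A z)) hne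
  simp only [Finset.mem_filter, Finset.mem_univ, true_and] at hi hmin
  refine ⟨i, hi, ?_, ?_, ?_⟩
  · have := hmin z hz2
    linarith
  · by_contra hcon
    push Not at hcon
    obtain ⟨w, hw⟩ := hcon
    have hcore : A i ⊆ L i := by
      rcases hA.adm.junk i with h | h
      · exact h
      · exact absurd (h w) (not_le.2 hw)
    have h1 : va p L w (A i) ≤ va p L i (A i) := by
      rw [va_eq_pr hcore]
      exact va_le_pr hp _ _
    have h2 : Relation.ReflTransGen (G p L A (va p L w (A w))) w a :=
      Relation.ReflTransGen.head hw (G_mono (by linarith) hi)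
    have := hmin w h2
    linarith
  · intro z' hz'
    by_contra hcon
    push Not at hcon
    have h2 : Relation.ReflTransGen (G p L A (va p L z' (A z'))) z' a :=
      hz'.trans (G_mono hcon.le hi)
    have := hmin z' h2
    linarith

/-- the induction -/
theorem stage (hp : ∀ g, 0 < p g) (hA : Opt p L A) {g : M} (hg : ∀ i, g ∉ A i) : ∀ (k : ℕ) (i : N),
    (∃ X : Finset N, X.card = k ∧ ∀ y, y ∈ X ↔ g ∈ L y ∧
      Relation.ReflTransGen (G p L A (va p L i (A i))) y i) →
    g ∉ L i → (∀ w, va p L w (A i) ≤ va p L w (A w)) →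
    (∀ y z, g ∈ L y → Relation.ReflTransGen (G p L A (va p L i (A i))) z i →
      va p L y (A y) < va p L y (A z) + p g → va p L i (A i) < va p L y (A z)) →
    (∀ z, Relation.ReflTransGen (G p L A (va p L z (A z))) z i →
      va p L i (A i) ≤ va p L z (A z)) → False := by
  classical
  intro k
  induction k using Nat.strong_induction_on with
  | _ k IH =>
  intro i hX h1 h2 h3 h4
  obtain ⟨X, hXk, hXm⟩ := hX
  obtain ⟨y0, hy0, hy0v⟩ := violator hp hA hg h1 h2
  have hy0X : y0 ∈ X := (hXm y0).2 ⟨hy0, Relation.ReflTransGen.single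
    (h3 y0 i hy0 Relation.ReflTransGen.refl hy0v)⟩
  obtain ⟨a, haX, hamin⟩ := Finset.exists_min_image X (fun y => va p L y (A y)) ⟨y0, hy0X⟩
  obtain ⟨hga, hai⟩ := (hXm a).1 haX
  have hNL : ∀ w, g ∈ L w → va p L w (A w) < va p L a (A a) →
      va p L w (A a ∩ L a) + p g ≤ va p L w (A w) := by
    intro w hw hwa
    by_contra hcon
    push Not at hcon
    have h5 : va p L w (A w) < va p L w (A a) + p g := by
      have : va p L w (A a ∩ L a) ≤ va p L w (A a) := va_mono hp _ Finset.inter_subset_left
      linarith
    have h6 : w ∈ X := (hXm w).2 ⟨hw, Relation.ReflTransGen.head (h3 w a hw hai h5) hai⟩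
    have := hamin w h6
    linarith
  obtain ⟨i', hi'a, hi'V, hi'u, hi'4⟩ := source hp hA hg hga hNL
  have hpg := hp g
  have hii' : va p L i (A i) ≤ va p L i' (A i') := by
    by_contra hcon
    push Not at hcon
    have := h4 i' (hi'a.trans (G_mono hcon.le hai))
    linarith
  have hi'i : Relation.ReflTransGen (G p L A (va p L i (A i))) i' i :=
    (G_mono hii' hi'a).trans hai
  refine IH _ ?_ i' ⟨X.filter fun y =>
    Relation.ReflTransGen (G p L A (va p L i' (A i'))) y i', rfl, ?_⟩ ?_ hi'u ?_ hi'4
  · rw [← hXk]
    apply Finset.card_lt_card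
    rw [Finset.ssubset_iff_of_subset (Finset.filter_subset _ _)]
    refine ⟨a, haX, ?_⟩
    rw [Finset.mem_filter]
    rintro ⟨_, hr⟩
    -- a closed walk through `i'`
    rcases Relation.ReflTransGen.cases_head hi'a with h5 | ⟨x, hx1, hx2⟩
    · rw [h5] at hi'V
      linarith
    · exact noCycle hp hA (le_refl _) hx1 (hx2.trans hr)
  · intro y
    rw [Finset.mem_filter, hXm]
    constructor
    · rintro ⟨⟨h5, _⟩, h6⟩
      exact ⟨h5, h6⟩
    · rintro ⟨h5, h6⟩
      exact ⟨⟨h5, (G_mono hii' h6).trans hi'i⟩, h6⟩
  · intro hgi'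
    have h5 : i' ∈ X := (hXm i').2 ⟨hgi', hi'i⟩
    have := hamin i' h5
    linarith
  · intro y z hy hz hyz
    have h5 := h3 y z hy ((G_mono hii' hz).trans hi'i) hyz
    have h6 : y ∈ X := (hXm y).2 ⟨hy, Relation.ReflTransGen.head h5
      ((G_mono hii' hz).trans hi'i)⟩
    have := hamin y h6
    linarith

/-- optimal allocations are complete -/
theorem complete [Nonempty N] (hp : ∀ g, 0 < p g) (hA : Opt p L A) (g : M) : ∃ i, g ∈ A i := by
  classical
  by_contra hcon
  push Not at hcon
  have hpg := hp g
  -- the poorest agent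
  obtain ⟨s, _, hs⟩ := Finset.exists_min_image (Finset.univ : Finset N)
    (fun z => va p L z (A z)) Finset.univ_nonempty
  have hsmin : ∀ w, va p L s (A s) ≤ va p L w (A w) := fun w => hs w (Finset.mem_univ _)
  have hgs : g ∉ L s := by
    intro hgs
    obtain ⟨i, _, hi, _, _⟩ := source hp hA hcon hgs (fun w _ hw => absurd (hsmin w) (not_le.2 hw))
    have := hsmin i
    linarith
  have hsu : ∀ w, va p L w (A s) ≤ va p L w (A w) := by
    intro w
    rcases hA.adm.junk s with h | h
    · have h1 : va p L w (A s) ≤ va p L s (A s) := by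
        rw [va_eq_pr h]
        exact va_le_pr hp _ _
      exact h1.trans (hsmin w)
    · exact h w
  obtain ⟨y, hy, _⟩ := violator hp hA hcon hgs hsu
  have hne : (Finset.univ.filter fun y => g ∈ L y).Nonempty := ⟨y, by simpa using hy⟩
  obtain ⟨a, ha, hamin⟩ := Finset.exists_min_image _ (fun y => va p L y (A y)) hne
  simp only [Finset.mem_filter, Finset.mem_univ, true_and] at ha hamin
  obtain ⟨i, hia, hiV, hiu, hi4⟩ := source hp hA hcon ha
    (fun w hw hw2 => absurd (hamin w hw) (not_le.2 hw2))
  refine stage hp hA hcon _ i ⟨Finset.univ.filter fun y => g ∈ L y ∧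
    Relation.ReflTransGen (G p L A (va p L i (A i))) y i, rfl, fun y => by simp⟩ ?_ hiu ?_ hi4
  · intro hgi
    have := hamin i hgi
    linarith
  · intro y z hy _ hyz
    have := hamin y hy
    linarith

end Pool.Agent.Lib.MP_c4077f_co
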