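import Pool.Agent.Lib.MP_c4077f_co.Imp

/-!
MP_c4077f_co: the lemma on the level of the agents which reach an agent who wants a free good.
-/

set_option linter.unusedSectionVars false

namespace Pool.Agent.Lib.MP_c4077f_co

open Finset

variable {N M : Type*} [Fintype N] [DecidableEq N] [Fintype M] [DecidableEq M]
variable {p : M → ℝ} {L : N → Finset M} {A : N → Finset M}

theorem star (hp : ∀ g, 0 < p g) (hA : Opt p L A) : ∀ (k : ℕ) (b : N) (q : M) (B : N → Finset M),
    (Finset.univ.filter fun x => va p L x (A x) < va p L b (A b)).card = k →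
    q ∈ L b → (∀ i j, i ≠ j → Disjoint (B i) (B j)) → (∀ i, B i ⊆ L i) → (∀ i, q ∉ B i) →
    (∀ x, B x = A x ∩ L x ∨ (va p L b (A b) < va p L x (A x) ∧ va p L b (A b) < pr p (B x) ∧
      ∀ w, va p L w (A w) < va p L b (A b) → Fine p L w (B x) (va p L w (A w)))) →
    (∀ w, q ∈ L w → va p L w (A w) < va p L b (A b) →
      va p L w (A b ∩ L b) + p q ≤ va p L w (A w)) →
    ∃ z, va p L z (A z) + p q ≤ va p L b (A b) ∧
      Relation.ReflTransGen (G p L A (va p L z (A z))) z b := by
  classical
  intro k
  induction k using Nat.strong_induction_on with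
  | _ k IH =>
  intro b q B hk hq hd hL hqB hctx hNL
  have hBb : B b = A b ∩ L b := by
    rcases hctx b with h | h
    · exact h
    · exact absurd h.1 (lt_irrefl _)
  have hqC : q ∉ A b ∩ L b := hBb ▸ hqB b
  have hVb0 : 0 ≤ va p L b (A b) := va_nonneg hp _ _
  have hprC : pr p (A b ∩ L b) = va p L b (A b) := rfl
  have hins : va p L b (A b) < pr p (insert q (A b ∩ L b)) := by
    rw [pr_insert hqC, hprC]
    have := hp q
    linarith
  obtain ⟨Z, hZ, hT⟩ := exists_trim (va p L b (A b)) _ hins
  -- step 1: a blocking agent
  have hw : ∃ w, va p L w (A w) < va p L b (A b) ∧ ¬ Fine p L w Z (va p L w (A w)) := by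
    by_contra hcon
    push Not at hcon
    refine imp hp hA (va p L b (A b)) b (Function.update B b (insert q (A b ∩ L b))) ?_ ?_
      (le_refl _) ?_ ?_ ?_
    · intro i j hij
      have key : ∀ j, j ≠ b → Disjoint (insert q (A b ∩ L b)) (B j) := by
        intro j hj
        rw [Finset.disjoint_insert_left]
        refine ⟨hqB j, ?_⟩
        rw [← hBb]
        exact hd b j (Ne.symm hj)
      by_cases hi : i = b
      · subst hi
        rw [Function.update_self, Function.update_of_ne (Ne.symm hij)]
        exact key j (Ne.symm hij)
      · rw [Function.update_of_ne hi]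
        by_cases hj : j = b
        · subst hj
          rw [Function.update_self]
          exact (key i hi).symm
        · rw [Function.update_of_ne hj]
          exact hd i j hij
    · intro i
      by_cases hi : i = b
      · subst hi
        rw [Function.update_self]
        exact Finset.insert_subset hq Finset.inter_subset_right
      · rw [Function.update_of_ne hi]
        exact hL i
    · rw [Function.update_self]
      exact hins
    · intro i
      by_cases hi : i = b
      · subst hi
        rw [Function.update_self]
        exact Or.inl hins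
      · rw [Function.update_of_ne hi]
        rcases hctx i with h | h
        · rw [h]
          by_cases h5 : va p L b (A b) < pr p (A i ∩ L i)
          · exact Or.inl h5
          · exact Or.inr ⟨not_lt.1 h5, rfl⟩
        · exact Or.inl h.2.1
    · intro i hi
      by_cases hib : i = b
      · subst hib
        rw [Function.update_self]
        refine ⟨Z, hZ, hT, fun w hw => ?_⟩
        by_cases h5 : va p L w (A w) < va p L i (A i)
        · exact hcon w h5
        · exact fine_of_trim hp hVb0 hT w (not_lt.1 h5)
      · rw [Function.update_of_ne hib] at hi ⊢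
        obtain ⟨Z', hZ', hT'⟩ := exists_trim _ _ hi
        refine ⟨Z', hZ', hT', fun w hw => ?_⟩
        by_cases h5 : va p L w (A w) < va p L b (A b)
        · rcases hctx i with h | h
          · rw [h] at hZ'
            exact fine_mono hp (hZ'.trans Finset.inter_subset_left) (hA.adm.efr w i)
              (va_nonneg hp _ _)
          · exact fine_mono hp hZ' (h.2.2 w h5) (va_nonneg hp _ _)
        · exact fine_of_trim hp hVb0 hT' w (not_lt.1 h5)
  obtain ⟨w, hwb, hwf⟩ := hw
  have hVw0 : 0 ≤ va p L w (A w) := va_nonneg hp _ _
  have hqw : q ∉ L w := by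
    intro hqw
    apply hwf
    apply fine_of_va_le hp
    have h5 := hNL w hqw hwb
    have h6 : va p L w Z ≤ va p L w (insert q (A b ∩ L b)) := va_mono hp w hZ
    have h7 := va_insert_le (L := L) hp w (A b ∩ L b) q
    linarith
  have hZw : va p L w Z ≤ va p L w (A b ∩ L b) := by
    rw [← va_insert_of_notMem w (A b ∩ L b) q hqw]
    exact va_mono hp w hZ
  have hjunk : A b ∩ L b = A b := by
    rcases hA.adm.junk b with h | h
    · exact Finset.inter_eq_left.2 h
    · exfalso
      apply hwf
      apply fine_of_va_le hp
      have := va_mono (L := L) hp w (Finset.inter_subset_left : A b ∩ L b ⊆ A b)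
      have := h w
      linarith
  rw [hjunk] at hqC hprC hins hZ hZw hBb
  have hcard : (A b).card < Z.card := by
    by_contra hc
    exact hwf (fine_of_le hp hZw (not_lt.1 hc) (hA.adm.efr w b) hVw0)
  have hZeq : Z = insert q (A b) := by
    apply Finset.eq_of_subset_of_card_le hZ
    rw [Finset.card_insert_of_notMem hqC]
    exact hcard
  subst hZeq
  have hqh : ∀ h ∈ A b, p q ≤ p h := by
    intro h hh
    have h5 := hT.2 h (Finset.mem_insert_of_mem hh)
    have h6 := pr_erase (p := p) (Finset.mem_insert_of_mem hh : h ∈ insert q (A b))
    rw [pr_insert hqC, hprC] at h6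
    linarith
  set X := va p L w (A b) with hX
  have hXle : X ≤ va p L b (A b) := by
    rw [← hprC]
    exact va_le_pr hp _ _
  have hX0 : 0 ≤ X := va_nonneg hp _ _
  set kb : ℝ := ((A b).card : ℝ) with hkb
  have hkb0 : 0 ≤ kb := by rw [hkb]; positivity
  have hblock : (kb + 1) * va p L w (A w) < kb * X := by
    unfold Fine at hwf
    rw [va_insert_of_notMem w (A b) q hqw, Finset.card_insert_of_notMem hqC] at hwf
    push_cast at hwf
    rw [← hkb, ← hX, not_le] at hwf
    have h5 : (1 - 1 / (kb + 1)) * X = kb * X / (kb + 1) := by
      field_simp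
      ring
    rw [h5, lt_div_iff₀ (by linarith)] at hwf
    linarith
  have hwX : va p L w (A w) < X := by
    by_contra hc
    have : kb * X ≤ kb * va p L w (A w) := mul_le_mul_of_nonneg_left (not_lt.1 hc) hkb0
    nlinarith
  have hGwb : ∀ mu, mu ≤ va p L w (A w) → G p L A mu w b := fun mu hmu =>
    lt_of_le_of_lt hmu hwX
  by_cases hdone : va p L w (A w) + p q ≤ va p L b (A b)
  · exact ⟨w, hdone, Relation.ReflTransGen.single (hGwb _ (le_refl _))⟩
  push Not at hdone
  have hkq : va p L w (A w) < kb * p q := by
    have h5 : kb * X ≤ kb * va p L b (A b) := mul_le_mul_of_nonneg_left hXle hkb0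
    have h6 : kb * va p L b (A b) ≤ kb * (va p L w (A w) + p q) :=
      mul_le_mul_of_nonneg_left hdone.le hkb0
    nlinarith
  -- a good liked by `w`
  obtain ⟨h, hh⟩ : ∃ h, h ∈ A b ∩ L w := by
    by_contra hc
    push Not at hc
    have : A b ∩ L w = ∅ := Finset.eq_empty_of_forall_notMem hc
    have h5 : X = 0 := by
      rw [hX]; unfold va pr
      rw [this]; simp
    linarith
  have hhA : h ∈ A b := (Finset.mem_inter.1 hh).1
  have hhw : h ∈ L w := (Finset.mem_inter.1 hh).2
  have hqneh : q ≠ h := fun e => hqC (e ▸ hhA)
  set D := insert q ((A b).erase h) with hD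
  have hqerase : q ∉ (A b).erase h := fun e => hqC (Finset.mem_of_mem_erase e)
  have hDcard : D.card = (A b).card := by
    rw [hD, Finset.card_insert_of_notMem hqerase, Finset.card_erase_of_mem hhA]
    have : 0 < (A b).card := Finset.card_pos.2 ⟨h, hhA⟩
    omega
  have hDsub : D ⊆ insert q (A b) := Finset.insert_subset_insert q (Finset.erase_subset _ _)
  have hDpr : va p L w (A w) < pr p D := by
    rw [hD, pr_insert hqerase]
    have h5 : (((A b).erase h).card : ℝ) * p q ≤ pr p ((A b).erase h) := by
      unfold pr
      rw [← nsmul_eq_mul]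
      apply Finset.card_nsmul_le_sum
      intro x hx
      exact hqh x (Finset.mem_of_mem_erase hx)
    have h6 : (((A b).erase h).card : ℝ) = kb - 1 := by
      rw [Finset.card_erase_of_mem hhA, hkb, Nat.cast_sub (Finset.card_pos.2 ⟨h, hhA⟩)]
      simp
    rw [h6] at h5
    nlinarith
  -- the new context
  set B1 := Function.update B b D with hB1
  have hAb : A b ⊆ L b := by
    rw [← hjunk]
    exact Finset.inter_subset_right
  have hB1d : ∀ i j, i ≠ j → Disjoint (B1 i) (B1 j) := by
    intro i j hij
    have key : ∀ j, j ≠ b → Disjoint D (B j) := by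
      intro j hj
      rw [hD, Finset.disjoint_insert_left]
      refine ⟨hqB j, ?_⟩
      apply Finset.disjoint_of_subset_left (Finset.erase_subset _ _)
      rw [← hBb]
      exact hd b j (Ne.symm hj)
    by_cases hi : i = b
    · subst hi
      rw [hB1, Function.update_self, Function.update_of_ne (Ne.symm hij)]
      exact key j (Ne.symm hij)
    · rw [hB1, Function.update_of_ne hi]
      by_cases hj : j = b
      · subst hj
        rw [Function.update_self]
        exact (key i hi).symm
      · rw [Function.update_of_ne hj]
        exact hd i j hij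
  have hB1L : ∀ i, B1 i ⊆ L i := by
    intro i
    by_cases hi : i = b
    · subst hi
      rw [hB1, Function.update_self, hD]
      exact Finset.insert_subset hq ((Finset.erase_subset _ _).trans hAb)
    · rw [hB1, Function.update_of_ne hi]
      exact hL i
  have hB1h : ∀ i, h ∉ B1 i := by
    intro i
    by_cases hi : i = b
    · subst hi
      rw [hB1, Function.update_self, hD, Finset.mem_insert]
      rintro (e | e)
      · exact hqneh e.symm
      · exact (Finset.notMem_erase h _) e
    · rw [hB1, Function.update_of_ne hi]
      intro e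
      have h5 := hd i b hi
      rw [hBb] at h5
      exact Finset.disjoint_left.1 h5 e hhA
  -- the chain
  set Rl : N → N → Prop := fun x y => h ∈ L y ∧ va p L y (A y) < va p L x (A x) ∧
    va p L y (A y) < va p L y (A x ∩ L x) + p h with hRl
  have hSne : (Finset.univ.filter fun c => Relation.ReflTransGen Rl w c).Nonempty :=
    ⟨w, by simp [Relation.ReflTransGen.refl]⟩
  obtain ⟨c, hc, hcmin⟩ := Finset.exists_min_image _ (fun c => va p L c (A c)) hSne
  simp only [Finset.mem_filter, Finset.mem_univ, true_and] at hc hcmin
  have hlike : ∀ c, Relation.ReflTransGen Rl w c → h ∈ L c := by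
    intro c hc
    rcases Relation.ReflTransGen.cases_tail hc with h5 | ⟨y, _, h6⟩
    · rw [h5]; exact hhw
    · exact h6.1
  have hcw : va p L c (A c) ≤ va p L w (A w) := hcmin w Relation.ReflTransGen.refl
  have hcb : va p L c (A c) < va p L b (A b) := lt_of_le_of_lt hcw hwb
  have hlt : (Finset.univ.filter fun x => va p L x (A x) < va p L c (A c)).card < k := by
    rw [← hk]
    apply Finset.card_lt_card
    rw [Finset.ssubset_iff_of_subset]
    · exact ⟨c, by simp [hcb], by simp⟩
    · intro x hx
      simp only [Finset.mem_filter, Finset.mem_univ, true_and] at hx ⊢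
      linarith
  have hctx1 : ∀ x, B1 x = A x ∩ L x ∨ (va p L c (A c) < va p L x (A x) ∧
      va p L c (A c) < pr p (B1 x) ∧
      ∀ w, va p L w (A w) < va p L c (A c) → Fine p L w (B1 x) (va p L w (A w))) := by
    intro x
    by_cases hx : x = b
    · subst hx
      right
      rw [hB1, Function.update_self]
      refine ⟨hcb, by linarith, fun w' hw' => ?_⟩
      have hw'b : va p L w' (A w') < va p L x (A x) := by linarith
      by_cases h5 : q ∈ L w'
      · have h6 := hNL w' h5 hw'b
        rw [hjunk] at h6
        apply fine_of_va_le hp
        have h7 := va_mono (L := L) hp w' hDsub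
        have h8 := va_insert_le (L := L) hp w' (A x) q
        linarith
      · apply fine_of_le hp (x := va p L w' (A x)) (k := (A x).card) _ hDcard.le
          (hA.adm.efr w' x) (va_nonneg hp _ _)
        rw [← va_insert_of_notMem w' (A x) q h5]
        exact va_mono hp w' hDsub
    · rw [hB1, Function.update_of_ne hx]
      rcases hctx x with h5 | h5
      · exact Or.inl h5
      · right
        refine ⟨by linarith [h5.1], by linarith [h5.2.1], fun w' hw' => h5.2.2 w' (by linarith)⟩
  have hNL1 : ∀ w, h ∈ L w → va p L w (A w) < va p L c (A c) →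
      va p L w (A c ∩ L c) + p h ≤ va p L w (A w) := by
    intro w' hhw' hw'c
    by_contra hcon
    push Not at hcon
    have h5 : Relation.ReflTransGen Rl w w' := Relation.ReflTransGen.tail hc ⟨hhw', hw'c, hcon⟩
    have := hcmin w' h5
    linarith
  obtain ⟨z, hz1, hz2⟩ := IH _ hlt c h B1 rfl (hlike c hc) hB1d hB1L hB1h hctx1 hNL1
  · have hzc : va p L z (A z) < va p L c (A c) := by
      have := hp h
      linarith
    refine ⟨z, ?_, ?_⟩
    · have := hqh h hhA
      linarith
    · have hchain : ∀ c', Relation.ReflTransGen Rl w c' →
          Relation.ReflTransGen (G p L A (va p L z (A z))) c' w := by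
        intro c' hc'
        induction hc' with
        | refl => exact Relation.ReflTransGen.refl
        | tail hy hyz ih =>
          rename_i y y'
          refine Relation.ReflTransGen.head ?_ ih
          have h5 : va p L c (A c) ≤ va p L y' (A y') :=
            hcmin y' (Relation.ReflTransGen.tail hy hyz)
          have h6 := hyz.2.2
          have h7 : va p L y' (A y ∩ L y) ≤ va p L y' (A y) :=
            va_mono hp _ Finset.inter_subset_left
          change va p L z (A z) < va p L y' (A y)
          linarith
      exact hz2.trans ((hchain c hc).trans (Relation.ReflTransGen.single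
        (hGwb _ (by linarith))))

end Pool.Agent.Lib.MP_c4077f_co
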